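import Pool.Agent.W262.SH.StmD
import Pool.Agent.W381.SH.Phia

/-!
# SD-LAT: integral representations of `{±1}^n`
-/

set_option autoImplicit false

namespace Pool.Agent.W509.SH

open Pool.Agent.W262.SH
open Pool.Agent.W381.SH (chS eM)

theorem fact {g : ℕ} (e : Matrix (Fin g) (Fin g) ℤ) :
    ∃ (m : ℕ) (B : Matrix (Fin g) (Fin m) ℤ) (C : Matrix (Fin m) (Fin g) ℤ),
      B * C = e ∧ Function.Injective B.mulVec ∧ Function.Surjective C.mulVec := by
  obtain ⟨V, hV⟩ : ∃ V : Submodule ℤ (Fin g → ℤ), V = LinearMap.range (Matrix.mulVecLin e) :=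
    ⟨_, rfl⟩
  subst hV
  let b := Module.finBasis ℤ (LinearMap.range (Matrix.mulVecLin e))
  refine ⟨_, LinearMap.toMatrix' ((LinearMap.range (Matrix.mulVecLin e)).subtype ∘ₗ
    b.equivFun.symm.toLinearMap), LinearMap.toMatrix' (b.equivFun.toLinearMap ∘ₗ
      (Matrix.mulVecLin e).rangeRestrict), ?_, ?_, ?_⟩
  · rw [← LinearMap.toMatrix'_comp]
    have h : ((LinearMap.range (Matrix.mulVecLin e)).subtype ∘ₗ b.equivFun.symm.toLinearMap) ∘ₗ
        (b.equivFun.toLinearMap ∘ₗ (Matrix.mulVecLin e).rangeRestrict) = Matrix.toLin' e := by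
      apply LinearMap.ext
      intro x
      simp
    rw [h, LinearMap.toMatrix'_toLin']
  · intro x y hxy
    rw [LinearMap.toMatrix'_mulVec, LinearMap.toMatrix'_mulVec] at hxy
    exact b.equivFun.symm.injective (Subtype.ext hxy)
  · intro x
    obtain ⟨v, hv⟩ := (Matrix.mulVecLin e).surjective_rangeRestrict (b.equivFun.symm x)
    refine ⟨v, ?_⟩
    rw [LinearMap.toMatrix'_mulVec, LinearMap.comp_apply, hv]
    exact b.equivFun.apply_symm_apply x

theorem canc_left {g m k : ℕ} {B : Matrix (Fin g) (Fin m) ℤ} (hB : Function.Injective B.mulVec)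
    {X Y : Matrix (Fin m) (Fin k) ℤ} (h : B * X = B * Y) : X = Y := by
  apply Matrix.ext
  intro i j
  have h1 : B.mulVec (fun i => X i j) = B.mulVec (fun i => Y i j) := by
    funext r
    exact congrFun (congrFun h r) j
  exact congrFun (hB h1) i

theorem canc_right {g m k : ℕ} {C : Matrix (Fin m) (Fin g) ℤ} (hC : Function.Surjective C.mulVec)
    {X Y : Matrix (Fin k) (Fin m) ℤ} (h : X * C = Y * C) : X = Y := by
  apply Matrix.ext
  intro i j
  obtain ⟨v, hv⟩ := hC (Pi.single j 1)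
  have h1 : X.mulVec (C.mulVec v) = Y.mulVec (C.mulVec v) := by
    rw [Matrix.mulVec_mulVec, Matrix.mulVec_mulVec, h]
  rw [hv, Matrix.mulVec_single_one, Matrix.mulVec_single_one] at h1
  exact congrFun h1 i

theorem chS_val' {n : ℕ} (S : Finset (Fin n)) (ε : Fin n → ℤˣ) :
    ((chS S ε : ℤˣ) : ℤ) = ∏ i ∈ S, ((ε i : ℤˣ) : ℤ) := by
  unfold chS
  simp

theorem lat : Pool.Agent.W262.SH.LAT := by
  intro n g ρ
  choose m B C hBC hB hC using fun S : Finset (Fin n) => fact (eM ρ S)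
  have h1 : ∀ (S : Finset (Fin n)) (ε : Fin n → ℤˣ), (ρ ε : Matrix (Fin g) (Fin g) ℤ) * eM ρ S =
      (∏ i ∈ S, ((ε i : ℤˣ) : ℤ)) • eM ρ S := by
    intro S ε
    rw [← chS_val']
    exact Pool.Agent.W381.SH.rho_mul_eS (chS S)
      ((Units.coeHom (Matrix (Fin g) (Fin g) ℤ)).comp ρ) ε
  have h2 : ∀ (S : Finset (Fin n)) (ε : Fin n → ℤˣ), eM ρ S * (ρ ε : Matrix (Fin g) (Fin g) ℤ) =
      (∏ i ∈ S, ((ε i : ℤˣ) : ℤ)) • eM ρ S := by
    intro S ε
    rw [← chS_val']
    exact Pool.Agent.W381.SH.eS_mul_rho (chS S)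
      ((Units.coeHom (Matrix (Fin g) (Fin g) ℤ)).comp ρ) ε
  have h3 : ∀ S : Finset (Fin n), C S * B S = ((2 : ℤ) ^ n) • (1 : Matrix (Fin (m S)) (Fin (m S)) ℤ) := by
    intro S
    apply canc_left (hB S)
    apply canc_right (hC S)
    have h4 := Pool.Agent.W381.SH.eM_sq ρ S
    rw [← hBC S] at h4
    rw [Matrix.mul_smul, Matrix.mul_one, Matrix.smul_mul, ← h4]
    simp only [Matrix.mul_assoc]
  have h5 : ∑ S, B S * C S = (2 ^ n : ℤ) • (1 : Matrix (Fin g) (Fin g) ℤ) := by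
    rw [← Pool.Agent.W381.SH.sum_eM ρ]
    exact Finset.sum_congr rfl fun S _ => hBC S
  refine ⟨m, B, C, ?_, ?_, ?_, h5⟩
  · have h6 : Matrix.trace (∑ S, B S * C S) = ∑ S, Matrix.trace (C S * B S) := by
      rw [Matrix.trace_sum]
      exact Finset.sum_congr rfl fun S _ => Matrix.trace_mul_comm _ _
    rw [h5, Matrix.trace_smul, Matrix.trace_one, Fintype.card_fin] at h6
    have h7 : ∀ S, Matrix.trace (C S * B S) = (2 : ℤ) ^ n * (m S : ℤ) := by
      intro S
      rw [h3 S, Matrix.trace_smul, Matrix.trace_one, Fintype.card_fin, smul_eq_mul]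
    simp only [h7] at h6
    rw [← Finset.mul_sum, smul_eq_mul] at h6
    have h8 := mul_left_cancel₀ (pow_ne_zero n (by norm_num : (2 : ℤ) ≠ 0)) h6
    exact_mod_cast h8.symm
  · intro S ε
    apply canc_right (hC S)
    rw [Matrix.mul_assoc, hBC, h1, Matrix.smul_mul, hBC]
  · intro S ε
    apply canc_left (hB S)
    rw [← Matrix.mul_assoc, hBC, h2, Matrix.mul_smul, hBC]

end Pool.Agent.W509.SH
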