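import Pool.Agent.W262.SH.StmD
import Pool.Agent.W381.SH.Phia

/-!
# SD-PHI: the Tate-Shafarevich group of `A` and the quadratic twists of `E`, sharp form
-/

set_option autoImplicit false

namespace Pool.Agent.W509.SH

open Pool.Agent.W262.SH
open Pool.Agent.W381.SH (chS chS_spec sqS IsTw act_tw thH)
open scoped Classical

section ract

variable {M : Type} [AddCommGroup M] {a b c : ℕ}

/-- rectangular matrices act on powers of abelian groups -/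
def ract (N : Matrix (Fin a) (Fin b) ℤ) (P : Fin b → M) : Fin a → M := fun i => ∑ j, N i j • P j

theorem ract_add (N : Matrix (Fin a) (Fin b) ℤ) (P Q : Fin b → M) :
    ract N (P + Q) = ract N P + ract N Q := by
  funext i
  simp only [ract, Pi.add_apply, smul_add, Finset.sum_add_distrib]

theorem ract_zero (N : Matrix (Fin a) (Fin b) ℤ) : ract N (0 : Fin b → M) = 0 := by
  funext i
  simp only [ract, Pi.zero_apply, smul_zero, Finset.sum_const_zero]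

theorem ract_sub (N : Matrix (Fin a) (Fin b) ℤ) (P Q : Fin b → M) :
    ract N (P - Q) = ract N P - ract N Q := by
  funext i
  simp only [ract, Pi.sub_apply, smul_sub, Finset.sum_sub_distrib]

theorem ract_zsmul (k : ℤ) (N : Matrix (Fin a) (Fin b) ℤ) (P : Fin b → M) :
    ract N (k • P) = k • ract N P := by
  funext i
  simp only [ract, Pi.smul_apply, Finset.smul_sum]
  exact Finset.sum_congr rfl fun j _ => smul_comm _ _ _

theorem ract_mul (N : Matrix (Fin a) (Fin b) ℤ) (N' : Matrix (Fin b) (Fin c) ℤ) (P : Fin c → M) :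
    ract (N * N') P = ract N (ract N' P) := by
  funext i
  simp only [ract, Matrix.mul_apply, Finset.sum_smul, Finset.smul_sum, mul_smul]
  rw [Finset.sum_comm]

theorem ract_smul (k : ℤ) (N : Matrix (Fin a) (Fin b) ℤ) (P : Fin b → M) :
    ract (k • N) P = k • ract N P := by
  funext i
  simp only [ract, Matrix.smul_apply, Pi.smul_apply, Finset.smul_sum, smul_smul, smul_eq_mul]

theorem ract_sum {I : Type} (s : Finset I) (f : I → Matrix (Fin a) (Fin b) ℤ) (P : Fin b → M) :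
    ract (∑ x ∈ s, f x) P = ∑ x ∈ s, ract (f x) P := by
  funext i
  simp only [ract, Matrix.sum_apply, Finset.sum_smul, Finset.sum_apply]
  rw [Finset.sum_comm]

theorem ract_one (P : Fin a → M) : ract 1 P = P := by
  funext i
  simp only [ract, Matrix.one_apply, ite_smul, one_smul, zero_smul]
  rw [Finset.sum_ite_eq]
  simp

theorem ract_hom {M' : Type} [AddCommGroup M'] (f : M →+ M') (N : Matrix (Fin a) (Fin b) ℤ)
    (P : Fin b → M) : ract N (fun j => f (P j)) = fun i => f (ract N P i) := by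
  funext i
  simp only [ract, map_sum, map_zsmul]

end ract

theorem chS_val {n : ℕ} (S : Finset (Fin n)) (ε : Fin n → ℤˣ) :
    ((chS S ε : ℤˣ) : ℤ) = ∏ i ∈ S, ((ε i : ℤˣ) : ℤ) := by
  unfold chS
  simp

section main

variable {n g m : ℕ} {D : Fin n → ℤ} (hD : ∀ i, D i ≠ 0) {A B : ℤ}
  (ρ : (Fin n → ℤˣ) →* (Matrix (Fin g) (Fin g) ℤ)ˣ)

theorem tact_eq (W : WeierstrassCurve ℚ) {L : Type} [Field L] [Algebra ℚ L] (τ : L →ₐ[ℚ] L)
    (P : Fin g → Pt W L) :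
    tact W D ρ τ P = ract ((ρ (chi D τ) : (Matrix (Fin g) (Fin g) ℤ)ˣ) : Matrix (Fin g) (Fin g) ℤ)
      (fun j => act W τ (P j)) := rfl

theorem C_tact {S : Finset (Fin n)} {C : Matrix (Fin m) (Fin g) ℤ}
    (hC : ∀ ε, C * (ρ ε : Matrix (Fin g) (Fin g) ℤ) = (∏ i ∈ S, ((ε i : ℤˣ) : ℤ)) • C)
    (W : WeierstrassCurve ℚ) {L : Type} [Field L] [Algebra ℚ L]
    (τ : L →ₐ[ℚ] L) (P : Fin g → Pt W L) (i : Fin m) :
    ract C (tact W D ρ τ P) i = ((chS S (chi D τ) : ℤˣ) : ℤ) • act W τ (ract C P i) := by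
  rw [tact_eq, ← ract_mul, hC, ract_smul, ract_hom, chS_val]
  rfl

theorem tact_B {S : Finset (Fin n)} {B' : Matrix (Fin g) (Fin m) ℤ}
    (hB : ∀ ε, (ρ ε : Matrix (Fin g) (Fin g) ℤ) * B' = (∏ i ∈ S, ((ε i : ℤˣ) : ℤ)) • B')
    (W : WeierstrassCurve ℚ) {L : Type} [Field L] [Algebra ℚ L]
    (τ : L →ₐ[ℚ] L) (P : Fin m → Pt W L) :
    tact W D ρ τ (ract B' P) =
      ((chS S (chi D τ) : ℤˣ) : ℤ) • ract B' (fun j => act W τ (P j)) := by
  rw [tact_eq, ← ract_hom, ← ract_mul, hB, ract_smul, chS_val]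

/-- the map on the functions -/
noncomputable def TT {S : Finset (Fin n)}
    {θ : ∀ (L : Type) [Field L] [Algebra ℚ L], L → Pt (E A B) L →
      Pt (E ((∏ j ∈ S, D j) * A) ((∏ j ∈ S, D j) * B)) L}
    (hθ : IsTw A B (∏ j ∈ S, D j) θ) (C : Matrix (Fin m) (Fin g) ℤ) {L : Type} [Field L]
    [Algebra ℚ L] (s : Fin n → L)
    (hs : ∀ i, s i ^ 2 = (D i : L)) (i : Fin m) :
    (Fin g → Pt (E A B) L) →+ Pt (E ((∏ j ∈ S, D j) * A) ((∏ j ∈ S, D j) * B)) L :=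
  (thH hθ (∏ i ∈ S, s i) (sqS D s hs S)).comp
    { toFun := fun P => ract C P i
      map_zero' := by rw [ract_zero]; rfl
      map_add' := fun P Q => by rw [ract_add]; rfl }

theorem TT_apply {S : Finset (Fin n)}
    {θ : ∀ (L : Type) [Field L] [Algebra ℚ L], L → Pt (E A B) L →
      Pt (E ((∏ j ∈ S, D j) * A) ((∏ j ∈ S, D j) * B)) L}
    (hθ : IsTw A B (∏ j ∈ S, D j) θ) (C : Matrix (Fin m) (Fin g) ℤ) {L : Type} [Field L]
    [Algebra ℚ L] (s : Fin n → L)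
    (hs : ∀ i, s i ^ 2 = (D i : L)) (i : Fin m) (P : Fin g → Pt (E A B) L) :
    TT hθ C s hs i P = θ L (∏ i ∈ S, s i) (ract C P i) := rfl

include hD in
theorem TT_tact {S : Finset (Fin n)}
    {θ : ∀ (L : Type) [Field L] [Algebra ℚ L], L → Pt (E A B) L →
      Pt (E ((∏ j ∈ S, D j) * A) ((∏ j ∈ S, D j) * B)) L}
    (hθ : IsTw A B (∏ j ∈ S, D j) θ) {C : Matrix (Fin m) (Fin g) ℤ}
    (hC : ∀ ε, C * (ρ ε : Matrix (Fin g) (Fin g) ℤ) = (∏ i ∈ S, ((ε i : ℤˣ) : ℤ)) • C)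
    {L : Type} [Field L] [Algebra ℚ L] (s : Fin n → L)
    (hs : ∀ i, s i ^ 2 = (D i : L)) (i : Fin m) (τ : L →ₐ[ℚ] L) (P : Fin g → Pt (E A B) L) :
    TT hθ C s hs i (tact (E A B) D ρ τ P) =
      act (E ((∏ j ∈ S, D j) * A) ((∏ j ∈ S, D j) * B)) τ (TT hθ C s hs i P) := by
  rw [TT_apply, TT_apply, act_tw hD hθ s hs, C_tact ρ hC]

theorem TT_nat {S : Finset (Fin n)}
    {θ : ∀ (L : Type) [Field L] [Algebra ℚ L], L → Pt (E A B) L →
      Pt (E ((∏ j ∈ S, D j) * A) ((∏ j ∈ S, D j) * B)) L}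
    (hθ : IsTw A B (∏ j ∈ S, D j) θ) (C : Matrix (Fin m) (Fin g) ℤ) {L L' : Type} [Field L]
    [Algebra ℚ L] [Field L']
    [Algebra ℚ L'] (s : Fin n → L) (hs : ∀ i, s i ^ 2 = (D i : L)) (ι : L →ₐ[ℚ] L')
    (hs' : ∀ i, (ι (s i)) ^ 2 = (D i : L')) (i : Fin m) (P : Fin g → Pt (E A B) L) :
    act (E ((∏ j ∈ S, D j) * A) ((∏ j ∈ S, D j) * B)) ι (TT hθ C s hs i P) =
      TT hθ C (fun i => ι (s i)) hs' i (fun j => act (E A B) ι (P j)) := by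
  rw [TT_apply, TT_apply, (hθ L _ (sqS D s hs S)).2.2.2 L' ι, ract_hom, map_prod]

include hD in
/-- local triviality -/
theorem TT_loc {S : Finset (Fin n)}
    {θ : ∀ (L : Type) [Field L] [Algebra ℚ L], L → Pt (E A B) L →
      Pt (E ((∏ j ∈ S, D j) * A) ((∏ j ∈ S, D j) * B)) L}
    (hθ : IsTw A B (∏ j ∈ S, D j) θ) {C : Matrix (Fin m) (Fin g) ℤ}
    (hC : ∀ ε, C * (ρ ε : Matrix (Fin g) (Fin g) ℤ) = (∏ i ∈ S, ((ε i : ℤˣ) : ℤ)) • C)
    (s : Fin n → QB) (hs : ∀ i, s i ^ 2 = (D i : QB))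
    (i : Fin m) (K : Type) [Field K] [Algebra ℚ K] {f : (QB ≃ₐ[ℚ] QB) → Fin g → Pt (E A B) QB}
    (hf : LocTrivA (E A B) D ρ K f) :
    LocTriv (E ((∏ j ∈ S, D j) * A) ((∏ j ∈ S, D j) * B)) K
      (fun σ => TT hθ C s hs i (f σ)) := by
  intro ι
  obtain ⟨P, hP⟩ := hf ι
  have hs' : ∀ i, (ι (s i)) ^ 2 = (D i : AlgebraicClosure K) := fun i => by
    rw [← map_pow, hs, map_intCast]
  refine ⟨TT hθ C (fun i => ι (s i)) hs' i P, fun τ σ h => ?_⟩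
  rw [TT_nat hθ C s hs ι hs', hP τ σ h, map_sub, TT_tact hD ρ hθ hC]

/-- the homomorphism on the cocycles -/
noncomputable def psi {S : Finset (Fin n)}
    {θ : ∀ (L : Type) [Field L] [Algebra ℚ L], L → Pt (E A B) L →
      Pt (E ((∏ j ∈ S, D j) * A) ((∏ j ∈ S, D j) * B)) L}
    (hθ : IsTw A B (∏ j ∈ S, D j) θ) {C : Matrix (Fin m) (Fin g) ℤ}
    (hC : ∀ ε, C * (ρ ε : Matrix (Fin g) (Fin g) ℤ) = (∏ i ∈ S, ((ε i : ℤˣ) : ℤ)) • C)
    (s : Fin n → QB) (hs : ∀ i, s i ^ 2 = (D i : QB))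
    (i : Fin m) : shaCocA (E A B) D ρ →+
      shaCoc (E ((∏ j ∈ S, D j) * A) ((∏ j ∈ S, D j) * B)) where
  toFun F := ⟨fun σ => TT hθ C s hs i (F.1 σ), by
    refine ⟨⟨F.2.1.1.comp (TT hθ C s hs i), fun σ τ => ?_⟩, ?_, ?_⟩
    · beta_reduce
      rw [F.2.1.2 σ τ, map_add, TT_tact hD ρ hθ hC]
    · intro p _
      exact TT_loc hD ρ hθ hC s hs i ℚ_[p] (F.2.2.1 p)
    · exact TT_loc hD ρ hθ hC s hs i ℝ F.2.2.2⟩
  map_zero' := by
    apply Subtype.ext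
    funext σ
    exact map_zero (TT hθ C s hs i)
  map_add' F F' := by
    apply Subtype.ext
    funext σ
    exact map_add (TT hθ C s hs i) (F.1 σ) (F'.1 σ)

theorem psi_apply {S : Finset (Fin n)}
    {θ : ∀ (L : Type) [Field L] [Algebra ℚ L], L → Pt (E A B) L →
      Pt (E ((∏ j ∈ S, D j) * A) ((∏ j ∈ S, D j) * B)) L}
    (hθ : IsTw A B (∏ j ∈ S, D j) θ) {C : Matrix (Fin m) (Fin g) ℤ}
    (hC : ∀ ε, C * (ρ ε : Matrix (Fin g) (Fin g) ℤ) = (∏ i ∈ S, ((ε i : ℤˣ) : ℤ)) • C)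
    (s : Fin n → QB) (hs : ∀ i, s i ^ 2 = (D i : QB))
    (i : Fin m) (F : shaCocA (E A B) D ρ) (σ : QB ≃ₐ[ℚ] QB) :
    (psi hD ρ hθ hC s hs i F).1 σ = TT hθ C s hs i (F.1 σ) := rfl

include hD in
theorem psi_cob {S : Finset (Fin n)}
    {θ : ∀ (L : Type) [Field L] [Algebra ℚ L], L → Pt (E A B) L →
      Pt (E ((∏ j ∈ S, D j) * A) ((∏ j ∈ S, D j) * B)) L}
    (hθ : IsTw A B (∏ j ∈ S, D j) θ) {C : Matrix (Fin m) (Fin g) ℤ}
    (hC : ∀ ε, C * (ρ ε : Matrix (Fin g) (Fin g) ℤ) = (∏ i ∈ S, ((ε i : ℤˣ) : ℤ)) • C)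
    (s : Fin n → QB) (hs : ∀ i, s i ^ 2 = (D i : QB))
    (i : Fin m) :
    (cobA (E A B) D ρ).addSubgroupOf (shaCocA (E A B) D ρ) ≤
      ((cob (E ((∏ j ∈ S, D j) * A) ((∏ j ∈ S, D j) * B))).addSubgroupOf
        (shaCoc (E ((∏ j ∈ S, D j) * A) ((∏ j ∈ S, D j) * B)))).comap
          (psi hD ρ hθ hC s hs i) := by
  intro F hF
  rw [AddSubgroup.mem_addSubgroupOf] at hF
  rw [AddSubgroup.mem_comap, AddSubgroup.mem_addSubgroupOf]
  obtain ⟨P, hP⟩ := hF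
  refine ⟨TT hθ C s hs i P, fun σ => ?_⟩
  rw [psi_apply, hP σ, map_sub, TT_tact hD ρ hθ hC]

/-- one component of the homomorphism -/
theorem one (hT : TWI) (hD : ∀ i, D i ≠ 0) (hA : A ≠ 0) (hB : B ≠ 0) (hAB : A ≠ B)
    (s : Fin n → QB) (hs : ∀ i, s i ^ 2 = (D i : QB)) (S : Finset (Fin n))
    {C : Matrix (Fin m) (Fin g) ℤ}
    (hC : ∀ ε, C * (ρ ε : Matrix (Fin g) (Fin g) ℤ) = (∏ i ∈ S, ((ε i : ℤˣ) : ℤ)) • C)
    (i : Fin m) :
    ∃ φ : ShaA (E A B) D ρ →+ Sha (E ((∏ j ∈ S, D j) * A) ((∏ j ∈ S, D j) * B)),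
      ∀ F : shaCocA (E A B) D ρ, φ (QuotientAddGroup.mk F) = 0 →
        ∃ P : Pt (E A B) QB, ∀ σ : QB ≃ₐ[ℚ] QB, ract C (F.1 σ) i =
          ((chS S (chi D σ.toAlgHom) : ℤˣ) : ℤ) • act (E A B) σ.toAlgHom P - P := by
  have hd : (∏ j ∈ S, D j) ≠ 0 := Finset.prod_ne_zero_iff.mpr fun j _ => hD j
  obtain ⟨θ, hθ'⟩ := hT A B (∏ j ∈ S, D j) hA hB hAB hd
  have hθ : IsTw A B (∏ j ∈ S, D j) θ := hθ'
  refine ⟨QuotientAddGroup.map _ _ (psi hD ρ hθ hC s hs i) (psi_cob hD ρ hθ hC s hs i), ?_⟩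
  intro F hF
  rw [QuotientAddGroup.map_mk, QuotientAddGroup.eq_zero_iff, AddSubgroup.mem_addSubgroupOf] at hF
  obtain ⟨R, hR⟩ := hF
  obtain ⟨h1, h2, h3, h4⟩ := hθ QB (∏ i ∈ S, s i) (sqS D s hs S)
  obtain ⟨P, rfl⟩ := h2.2 R
  refine ⟨P, fun σ => h2.1 ?_⟩
  have h5 := hR σ
  rw [psi_apply, TT_apply, act_tw hD hθ s hs] at h5
  rw [h5]
  exact (map_sub (thH hθ (∏ i ∈ S, s i) (sqS D s hs S)) _ _).symm

end main

theorem phia2 (hT : Pool.Agent.W262.SH.TWI) : Pool.Agent.W262.SH.PHIA2 := by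
  intro n g D ρ m B' C hL A B hA hB hAB hD
  obtain ⟨-, hB', hC, hBC⟩ := hL
  have hex : ∀ i : Fin n, ∃ r : QB, r ^ 2 = (D i : QB) := fun i =>
    IsAlgClosed.exists_pow_nat_eq _ (by norm_num)
  choose s hs using hex
  choose φ hφ using fun (x : (S : Finset (Fin n)) × Fin (m S)) =>
    one (A := A) (B := B) ρ hT hD hA hB hAB s hs x.1 (hC x.1) x.2
  refine ⟨AddMonoidHom.pi φ, ?_⟩
  intro c hc
  obtain ⟨F, rfl⟩ := QuotientAddGroup.mk_surjective c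
  have hc' : ∀ x : (S : Finset (Fin n)) × Fin (m S), φ x (QuotientAddGroup.mk F) = 0 := fun x =>
    congrFun hc x
  choose P hP using fun x => hφ x F (hc' x)
  have hPS : ∀ (S : Finset (Fin n)) (σ : QB ≃ₐ[ℚ] QB), ract (C S) (F.1 σ) =
      ((chS S (chi D σ.toAlgHom) : ℤˣ) : ℤ) •
        (fun i => act (E A B) σ.toAlgHom (P ⟨S, i⟩)) - fun i => P ⟨S, i⟩ := by
    intro S σ
    funext i
    rw [hP ⟨S, i⟩ σ]
    rfl
  have h1 : ∀ (S : Finset (Fin n)) (σ : QB ≃ₐ[ℚ] QB), ract (B' S * C S) (F.1 σ) =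
      tact (E A B) D ρ σ.toAlgHom (ract (B' S) fun i => P ⟨S, i⟩) -
        ract (B' S) fun i => P ⟨S, i⟩ := by
    intro S σ
    rw [ract_mul, hPS S σ, ract_sub, ract_zsmul, tact_B ρ (hB' S)]
  have hsum : ∀ (σ : QB ≃ₐ[ℚ] QB) (t : Finset (Finset (Fin n))),
      tact (E A B) D ρ σ.toAlgHom (∑ S ∈ t, ract (B' S) fun i => P ⟨S, i⟩) =
        ∑ S ∈ t, tact (E A B) D ρ σ.toAlgHom (ract (B' S) fun i => P ⟨S, i⟩) := by
    intro σ t
    induction t using Finset.induction_on with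
    | empty => rw [Finset.sum_empty, Finset.sum_empty, tact_zero]
    | insert S t hS ih => rw [Finset.sum_insert hS, Finset.sum_insert hS, tact_add, ih]
  have h3 : ∀ σ : QB ≃ₐ[ℚ] QB, (2 ^ n) • F.1 σ =
      tact (E A B) D ρ σ.toAlgHom (∑ S, ract (B' S) fun i => P ⟨S, i⟩) -
        ∑ S, ract (B' S) fun i => P ⟨S, i⟩ := by
    intro σ
    rw [hsum, ← Finset.sum_sub_distrib, ← Finset.sum_congr rfl fun S _ => h1 S σ, ← ract_sum,
      hBC, ract_smul, ract_one, ← natCast_zsmul]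
    push_cast
    rfl
  have h4 : (2 ^ n) • (QuotientAddGroup.mk F : ShaA (E A B) D ρ) =
      QuotientAddGroup.mk ((2 ^ n) • F) := rfl
  rw [h4, QuotientAddGroup.eq_zero_iff, AddSubgroup.mem_addSubgroupOf]
  exact ⟨_, h3⟩

end Pool.Agent.W509.SH
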